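import Pool.Agent.H46.CH.DL
import Pool.Agent.H45.CH.B2

/-!
# The edges of a structure, for trees
-/

set_option autoImplicit false

namespace Pool.Agent.H23.CHD

open Classical Pool.Agent.H46.CH
open Pool.Agent.H8.VR (C2)
open Pool.Agent.H8.JS (NTM Cfg Mv IsComp lang num)

section
variable {J : Type} [Fintype J]

private theorem mem_out (M : BM J) (l : M.Lb) (i : M.I) (h : l.2.1 = some i) (s : Bool)
    (hs : s = true → M.ar i = true)
    (c : (M.Lb → (Fin 3 → Prop) → (Fin 3 → Prop) → Prop) × ℕ × Bool)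
    (hc : c ∈ M.outs i s l.2.2) : c ∈ M.lc.ct l := by
  refine List.mem_append_left _ (List.mem_append_right _ ?_)
  unfold BM.outc
  rw [h]
  cases s with
  | false => exact List.mem_append_left _ hc
  | true =>
    refine List.mem_append_right _ ?_
    rw [if_pos (hs rfl)]
    exact hc

private theorem outs_pos (M : BM J) (i : M.I) (s : Bool) (κ : Option J) (hd : M.dir i = true)
    (j : J) : (fun l' a _ => a 1 ∧ l'.1 = some (i, s) ∧ l'.2.2 = some j,
      (match κ with | some k => M.A i j k | none => M.c i j), true) ∈ M.outs i s κ := by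
  unfold BM.outs
  rw [if_pos hd]
  exact List.mem_cons_of_mem _ (List.mem_map.2 ⟨j, by simp, rfl⟩)

private theorem outs_neg (M : BM J) (i : M.I) (s : Bool) (κ : Option J) (hd : ¬ M.dir i = true) :
    (fun l' a _ => a 1 ∧ l'.1 = some (i, s), if κ = none then 0 else 1, true) ∈ M.outs i s κ := by
  unfold BM.outs
  rw [if_neg hd]
  exact List.mem_cons_self ..

private theorem inc_pos (M : BM J) (l : M.Lb) (i : M.I × Bool) (h : l.1 = some i)
    (hd : M.dir i.1 = true) :
    (fun _ _ b => b 1, if l.2.2 = none then 0 else 1, true) ∈ M.lc.ct l := by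
  refine List.mem_append_right _ ?_
  unfold BM.inc
  rw [h]
  simp only [if_pos hd]
  exact List.mem_cons_self ..

private theorem inc_neg (M : BM J) (l : M.Lb) (i : M.I × Bool) (h : l.1 = some i)
    (hd : ¬ M.dir i.1 = true)
    (j : J) : (fun l' _ b => b 1 ∧ l'.2.2 = some j,
      (match l.2.2 with | some k => M.A i.1 j k | none => M.c i.1 j), true) ∈ M.lc.ct l := by
  refine List.mem_append_right _ ?_
  unfold BM.inc
  rw [h]
  simp only [if_neg hd]
  refine List.mem_cons_of_mem _ (List.mem_map.2 ⟨j, by simp, rfl⟩)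

/-- the edges of a structure -/
theorem pf_TB2 : Pool.Agent.H46.CH.T_TB2 := by
  intro J _ M A _ R lab b p sd e hp hb hS hl2 hl1 t i ht hei hct1 hcp1 hsd huq
  obtain ⟨hok, hpr, hct⟩ := hS
  have hR : ∀ x y, x ≠ y → R 1 x y → 0 < b y ∧ p (b y) = b x := by
    intro x y h h1
    obtain ⟨h2, h3, -⟩ := (hpr x y h).2.2 h1
    have h4 : R 0 x y := h2
    have h5 : ¬ R 0 y x := h3
    rw [hb] at h4 h5
    rcases h4 with h4 | h4
    · exact (h5 (Or.inl h4.symm)).elim
    · exact h4
  have g1 : ∀ y, b y = t → (lab y).1 = some (i, sd t) := by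
    intro y hy
    obtain ⟨i', h1, h2⟩ := hl1 y (by omega)
    rw [hy, hei] at h1
    rw [h2, hy, Option.some.inj h1]
  have g2 : ∀ x, b x = p t → (lab x).2.1 = some i := by
    intro x hx
    rw [hl2, hx, hei]
  have g3 : ∀ x y, b x = p t → x ≠ y → R 1 x y → (b y = t ↔ (lab y).1 = some (i, sd t)) := by
    intro x y hx hne h1
    refine ⟨g1 y, fun h2 => ?_⟩
    obtain ⟨h3, h4⟩ := hR x y hne h1
    obtain ⟨i', h5, h6⟩ := hl1 y h3
    rw [h6] at h2
    have h7 : sd (b y) = sd t := (Prod.mk.inj (Option.some.inj h2)).2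
    exact huq (b y) h3 (h4.trans hx) h7 ⟨y, rfl⟩
  unfold AM.Rel
  by_cases hd : M.dir i = true
  · rw [if_pos hd]
    intro j
    refine Pool.Agent.H45.CH.dbl b (fun x => (lab x).2.2)
      (fun x y => x ≠ y ∧ R 1 x y ∧ b x = p t ∧ b y = t) (p t) t j
      (fun o => match o with | some k => M.A i j k | none => M.c i j) ?_ ?_ ?_ ?_
    · intro y hy hj
      have h := hct y _ (inc_pos M (lab y) (i, sd t) (g1 y hy) hd)
      rw [if_pos rfl] at h
      have hj' : (lab y).2.2 = some j := hj
      rw [hj', if_neg (by simp)] at h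
      refine Eq.trans ?_ h
      unfold pn
      congr 1
      ext x
      constructor
      · rintro ⟨h1, h2, h3, h4⟩
        exact ⟨h1, h2⟩
      · rintro ⟨h1, h2⟩
        refine ⟨h1, h2, ?_, hy⟩
        have := (hR x y h1 h2).2
        rw [hy] at this
        exact this.symm
    · intro x hx
      have h := hct x _ (mem_out M (lab x) i (g2 x hx) (sd t) hsd _
        (outs_pos M i (sd t) _ hd j))
      rw [if_pos rfl] at h
      refine Eq.trans ?_ h
      unfold pn
      congr 1
      ext y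
      constructor
      · rintro ⟨⟨h1, h2, h3, h4⟩, h5⟩
        exact ⟨fun h' => h1 h'.symm, h2, (g3 x y hx h1 h2).1 h4, h5⟩
      · rintro ⟨h1, h2, h3, h4⟩
        exact ⟨⟨fun h' => h1 h'.symm, h2, hx, (g3 x y hx (fun h' => h1 h'.symm) h2).2 h3⟩, h4⟩
    · rintro x y ⟨-, -, h3, h4⟩
      exact ⟨fun _ => h4, fun _ => h3⟩
    · exact hcp1
  · rw [if_neg hd]
    intro j
    refine Pool.Agent.H45.CH.dbl b (fun x => (lab x).2.2)
      (fun x y => x ≠ y ∧ R 1 y x ∧ b y = p t ∧ b x = t) t (p t) j
      (fun o => match o with | some k => M.A i j k | none => M.c i j) ?_ ?_ ?_ ?_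
    · intro y hy hj
      have h := hct y _ (mem_out M (lab y) i (g2 y hy) (sd t) hsd _
        (outs_neg M i (sd t) _ hd))
      rw [if_pos rfl] at h
      have hj' : (lab y).2.2 = some j := hj
      rw [hj', if_neg (by simp)] at h
      refine Eq.trans ?_ h
      unfold pn
      congr 1
      ext x
      constructor
      · rintro ⟨h1, h2, h3, h4⟩
        exact ⟨h1, h2, (g3 y x hy (fun h' => h1 h'.symm) h2).1 h4⟩
      · rintro ⟨h1, h2, h3⟩
        exact ⟨h1, h2, hy, (g3 y x hy (fun h' => h1 h'.symm) h2).2 h3⟩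
    · intro x hx
      have h := hct x _ (inc_neg M (lab x) (i, sd t) (g1 x hx) hd j)
      rw [if_pos rfl] at h
      refine Eq.trans ?_ h
      unfold pn
      congr 1
      ext y
      constructor
      · rintro ⟨⟨h1, h2, h3, h4⟩, h5⟩
        exact ⟨fun h' => h1 h'.symm, h2, h5⟩
      · rintro ⟨h1, h2, h4⟩
        have h5 := (hR y x h1 h2).2
        rw [hx] at h5
        exact ⟨⟨fun h' => h1 h'.symm, h2, h5.symm, hx⟩, h4⟩
    · rintro x y ⟨-, -, h3, h4⟩
      exact ⟨fun _ => h3, fun _ => h4⟩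
    · exact hct1

end

end Pool.Agent.H23.CHD
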