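import Pool.Agent.H46.CH.DL

/-!
# From trees to structures on `Fin n`
-/

set_option autoImplicit false

namespace Pool.Agent.H23.CHD

open Classical Pool.Agent.H46.CH
open Pool.Agent.H8.VR (C2)
open Pool.Agent.H8.JS (NTM Cfg Mv IsComp lang num)

theorem pf_TCA (hTRA : T_TRA) (hTTP : T_TTP) (hTMT : T_TMT) (hTCR : T_TCR) :
    Pool.Agent.H46.CH.T_TCA := by
  intro J _ M n hn
  obtain ⟨e, s, hi, ht, hs, hn⟩ := hn
  obtain ⟨T, p, sd, es, vs, hr, he, hv, hsz⟩ := hTRA J M e (fun _ => 0) s ht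
  obtain ⟨A, hA, R, lab, hP, hlc, hc⟩ := hTCR J M T p sd es vs hr
    (fun j => by rw [hv]) (fun i h => by
      rw [he] at h
      rw [← Option.some.inj h]
      exact hi)
  obtain ⟨R', hR', hloc⟩ := (hTMT J M A R lab).2 hlc (by rw [hc, hc, hsz, hsz, hs])
  have hcard : Nat.card A = n := by
    have h1 := Set.ncard_add_ncard_compl {x | M.stl (lab x) = false}
    have h2 : {x | M.stl (lab x) = false}ᶜ = {x | M.stl (lab x) = true} := by
      ext x
      simp
    rw [h2, hc, hc, hsz, hsz] at h1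
    rw [← h1, hn]
  have E : A ≃ Fin n := Finite.equivFinOfCardEq hcard
  refine ⟨fun i x y => R' i (E.symm x) (E.symm y), fun x => lab (E.symm x), ?_, ?_⟩
  · refine (hTTP M.Lb A (Fin n) M.loc E lab R').1 ?_
    rw [hR']
    exact hP
  · exact (hTTP M.Lb A (Fin n) M.loc E lab R').2 hloc

end Pool.Agent.H23.CHD
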